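import Mathlib

/-!
# The sum of `ρ(m) / m`, where `ρ = χ₄ * 1`
-/

set_option autoImplicit false

namespace Pool.Agent.V11292.Q

open Finset ArithmeticFunction

/-- The harmonic sum. -/
noncomputable def H (N : ℕ) : ℝ := ∑ i ∈ Ioc 0 N, (i : ℝ)⁻¹

lemma H_zero : H 0 = 0 := by simp [H]

lemma H_mono : Monotone H := by
  intro a b hab
  unfold H
  apply Finset.sum_le_sum_of_subset_of_nonneg
  · intro x hx
    rw [mem_Ioc] at hx ⊢
    omega
  · intro i _ _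
    positivity

lemma H_nonneg (N : ℕ) : 0 ≤ H N := by
  unfold H
  positivity

lemma H_eq (N : ℕ) : H N = (harmonic N : ℝ) := by
  rw [harmonic_eq_sum_Icc]
  unfold H
  push_cast
  rfl

lemma log_le_H (N : ℕ) : Real.log ((N + 1 : ℕ) : ℝ) ≤ H N := by
  rw [H_eq]
  exact log_add_one_le_harmonic N

lemma H_le (N : ℕ) : H N ≤ 1 + Real.log N := by
  rw [H_eq]
  exact harmonic_le_one_add_log N

lemma one_le_H {N : ℕ} (hN : 1 ≤ N) : 1 ≤ H N := by
  have h := H_mono hN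
  have h1 : H 1 = 1 := by simp [H]
  rwa [h1] at h

lemma H_sq_le {N : ℕ} (hN : 1 ≤ N) : H (N ^ 2) ≤ 3 * H N := by
  have h1 := H_le (N ^ 2)
  have h2 := log_le_H N
  have h3 := one_le_H hN
  have h4 : Real.log N ≤ Real.log ((N + 1 : ℕ) : ℝ) := by
    apply Real.log_le_log
    · exact_mod_cast hN
    · exact_mod_cast Nat.le_succ N
  push_cast at h1
  rw [Real.log_pow] at h1
  push_cast at h1
  linarith

lemma alt_bound (N : ℕ) : ∀ (b : ℕ → ℝ), Antitone b → (∀ j, 0 ≤ b j) →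
    0 ≤ ∑ j ∈ range N, (-1 : ℝ) ^ j * b j ∧ ∑ j ∈ range N, (-1 : ℝ) ^ j * b j ≤ b 0 := by
  induction N with
  | zero => intro b _ h0; simp [h0]
  | succ N ih =>
    intro b hb h0
    obtain ⟨h1, h2⟩ := ih (fun j => b (j + 1)) (fun i j hij => hb (by omega)) (fun j => h0 _)
    rw [Finset.sum_range_succ']
    have h3 : ∑ k ∈ range N, (-1 : ℝ) ^ (k + 1) * b (k + 1) =
        - ∑ k ∈ range N, (-1 : ℝ) ^ k * b (k + 1) := by
      rw [← Finset.sum_neg_distrib]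
      apply Finset.sum_congr rfl
      intro k _
      ring
    have h4 : b 1 ≤ b 0 := hb (by norm_num)
    simp only [zero_add] at h2
    rw [h3]
    constructor
    · simp only [pow_zero, one_mul]
      linarith
    · simp only [pow_zero, one_mul]
      linarith

lemma alt_bound' (N : ℕ) (b : ℕ → ℝ) (hb : Antitone b) (h0 : ∀ j, 0 ≤ b j) :
    b 0 - b 1 ≤ ∑ j ∈ range (N + 1), (-1 : ℝ) ^ j * b j := by
  obtain ⟨h1, h2⟩ := alt_bound N (fun j => b (j + 1)) (fun i j hij => hb (by omega))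
    (fun j => h0 _)
  rw [Finset.sum_range_succ']
  have h3 : ∑ k ∈ range N, (-1 : ℝ) ^ (k + 1) * b (k + 1) =
      - ∑ k ∈ range N, (-1 : ℝ) ^ k * b (k + 1) := by
    rw [← Finset.sum_neg_distrib]
    apply Finset.sum_congr rfl
    intro k _
    ring
  simp only [zero_add] at h2
  rw [h3]
  simp only [pow_zero, one_mul]
  linarith

/-- The character `χ₄` as an arithmetic function. -/
def chiA : ArithmeticFunction ℤ := ⟨fun n => ZMod.χ₄ n, by simp⟩

lemma chiA_apply (n : ℕ) : chiA n = ZMod.χ₄ n := rfl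

lemma chiA_mult : chiA.IsMultiplicative := by
  refine ⟨by simp [chiA_apply], ?_⟩
  intro m n _
  rw [chiA_apply, chiA_apply, chiA_apply, Nat.cast_mul, map_mul]

/-- `ρ(m)`, the sum of `χ₄` over the divisors of `m`. -/
def rho (m : ℕ) : ℤ := ∑ d ∈ m.divisors, ZMod.χ₄ d

lemma rho_eq (m : ℕ) : rho m = (chiA * (zeta : ArithmeticFunction ℤ)) m := by
  rw [coe_mul_zeta_apply]
  rfl

lemma rho_mul {a b : ℕ} (h : Nat.Coprime a b) : rho (a * b) = rho a * rho b := by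
  rw [rho_eq, rho_eq, rho_eq]
  exact (chiA_mult.mul isMultiplicative_zeta.natCast).map_mul_of_coprime h

lemma rho_prime_pow {p k : ℕ} (hp : p.Prime) :
    rho (p ^ k) = ∑ i ∈ range (k + 1), (ZMod.χ₄ p : ℤ) ^ i := by
  unfold rho
  rw [Nat.divisors_prime_pow hp, Finset.sum_map]
  apply Finset.sum_congr rfl
  intro i _
  show ZMod.χ₄ ((p ^ i : ℕ) : ZMod 4) = ZMod.χ₄ p ^ i
  rw [Nat.cast_pow, map_pow]

lemma rho_one : rho 1 = 1 := by simp [rho]

lemma rho_two_pow (k : ℕ) : rho (2 ^ k) = 1 := by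
  rw [rho_prime_pow Nat.prime_two, Finset.sum_range_succ']
  have h : ((ZMod.χ₄ ((2 : ℕ) : ZMod 4)) : ℤ) = 0 := by decide
  rw [h]
  simp

/-- The sum of `ρ(m) / m`. -/
noncomputable def S (X : ℕ) : ℝ := ∑ m ∈ Ioc 0 X, (rho m : ℝ) * (m : ℝ)⁻¹

/-- auxiliary arithmetic functions -/
noncomputable def fA : ArithmeticFunction ℝ := ⟨fun n => ((ZMod.χ₄ n : ℤ) : ℝ) * (n : ℝ)⁻¹, by simp⟩

/-- auxiliary arithmetic functions -/
noncomputable def gA : ArithmeticFunction ℝ := ⟨fun n => (n : ℝ)⁻¹, by simp⟩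

lemma S_eq (X : ℕ) : S X = ∑ d ∈ Ioc 0 X, ((ZMod.χ₄ d : ℤ) : ℝ) * ((d : ℝ)⁻¹ * H (X / d)) := by
  have h := sum_Ioc_mul_eq_sum_sum fA gA X
  have h1 : ∑ n ∈ Ioc 0 X, (fA * gA) n = S X := by
    unfold S
    apply Finset.sum_congr rfl
    intro m hm
    rw [mem_Ioc] at hm
    rw [mul_apply]
    have h2 : ∑ x ∈ m.divisorsAntidiagonal, fA x.1 * gA x.2 =
        ∑ x ∈ m.divisorsAntidiagonal, ((ZMod.χ₄ x.1 : ℤ) : ℝ) * (m : ℝ)⁻¹ := by
      apply Finset.sum_congr rfl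
      intro x hx
      rw [Nat.mem_divisorsAntidiagonal] at hx
      have h3 : fA x.1 = ((ZMod.χ₄ x.1 : ℤ) : ℝ) * (x.1 : ℝ)⁻¹ := rfl
      have h4 : gA x.2 = (x.2 : ℝ)⁻¹ := rfl
      rw [h3, h4, ← hx.1]
      push_cast
      rw [mul_inv]
      ring
    rw [h2, ← Finset.sum_mul]
    congr 1
    unfold rho
    push_cast
    exact Nat.sum_divisorsAntidiagonal (f := fun d _ => ((ZMod.χ₄ d : ℤ) : ℝ))
  rw [← h1, h]
  apply Finset.sum_congr rfl
  intro d _
  have h3 : fA d = ((ZMod.χ₄ d : ℤ) : ℝ) * (d : ℝ)⁻¹ := rfl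
  have h4 : ∑ m ∈ Ioc 0 (X / d), gA m = H (X / d) := rfl
  rw [h3, h4, mul_assoc]

/-- The terms of the alternating sum. -/
noncomputable def bb (X j : ℕ) : ℝ := ((2 * j + 1 : ℕ) : ℝ)⁻¹ * H (X / (2 * j + 1))

lemma bb_anti (X : ℕ) : Antitone (bb X) := by
  intro i j hij
  unfold bb
  apply mul_le_mul
  · apply inv_anti₀
    · positivity
    · exact_mod_cast (by omega : 2 * i + 1 ≤ 2 * j + 1)
  · apply H_mono
    exact Nat.div_le_div_left (by omega) (by omega)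
  · exact H_nonneg _
  · positivity

lemma bb_nonneg (X j : ℕ) : 0 ≤ bb X j := by
  unfold bb
  exact mul_nonneg (by positivity) (H_nonneg _)

lemma sum_range_two_mul (f : ℕ → ℝ) (N : ℕ) :
    ∑ i ∈ range (2 * N), f i = ∑ j ∈ range N, (f (2 * j) + f (2 * j + 1)) := by
  induction N with
  | zero => simp
  | succ N ih =>
    rw [show 2 * (N + 1) = 2 * N + 1 + 1 by ring, Finset.sum_range_succ, Finset.sum_range_succ,
      Finset.sum_range_succ, ih]
    ring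

lemma S_eq' (X : ℕ) : S X = ∑ j ∈ range (X + 1), (-1 : ℝ) ^ j * bb X j := by
  rw [S_eq]
  have h1 : ∑ d ∈ Ioc 0 X, ((ZMod.χ₄ d : ℤ) : ℝ) * ((d : ℝ)⁻¹ * H (X / d)) =
      ∑ d ∈ range (2 * (X + 1)), ((ZMod.χ₄ d : ℤ) : ℝ) * ((d : ℝ)⁻¹ * H (X / d)) := by
    apply Finset.sum_subset
    · intro x hx
      rw [mem_Ioc] at hx
      rw [mem_range]
      omega
    · intro x _ hx
      rw [mem_Ioc] at hx
      rcases Nat.eq_zero_or_pos x with rfl | h0
      · simp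
      · have h2 : X / x = 0 := Nat.div_eq_of_lt (by omega)
        rw [h2, H_zero]
        simp
  rw [h1, sum_range_two_mul]
  apply Finset.sum_congr rfl
  intro j _
  have h2 : (ZMod.χ₄ ((2 * j : ℕ) : ZMod 4) : ℤ) = 0 := by
    rw [ZMod.χ₄_nat_eq_if_mod_four]
    simp
  have h3 : (ZMod.χ₄ ((2 * j + 1 : ℕ) : ZMod 4) : ℤ) = (-1) ^ j := by
    rw [ZMod.χ₄_eq_neg_one_pow (by omega)]
    congr 1
    omega
  rw [h2, h3]
  unfold bb
  push_cast
  ring

lemma S_le (X : ℕ) : S X ≤ H X := by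
  rw [S_eq']
  refine (alt_bound (X + 1) (bb X) (bb_anti X) (bb_nonneg X)).2.trans (le_of_eq ?_)
  simp [bb]

lemma le_S (X : ℕ) : 2 / 3 * H X ≤ S X := by
  rw [S_eq']
  refine le_trans ?_ (alt_bound' X (bb X) (bb_anti X) (bb_nonneg X))
  have h0 : bb X 0 = H X := by simp [bb]
  have h1 : bb X 1 ≤ 1 / 3 * H X := by
    unfold bb
    have h2 : H (X / (2 * 1 + 1)) ≤ H X := H_mono (Nat.div_le_self _ _)
    norm_num at h2 ⊢
    linarith
  rw [h0]
  linarith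

end Pool.Agent.V11292.Q
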