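import Pool.Agent.V11292.Q.Inst

/-!
# The counts of the primes `n ^ 2 + s ^ 2` with `1 ≤ s < n` are not bounded below by `π(n) / 5`
-/

set_option autoImplicit false

namespace Pool.Agent.V11292.Q

open Finset

/-- Three times the product of the primes `3 mod 4` up to `y`. -/
def QQ (y : ℕ) : ℕ := 3 * ∏ p ∈ (range (y + 1)).filter (fun p => p.Prime ∧ p % 4 = 3), p

lemma V_pow {m : ℕ} (h : V m) (k : ℕ) : V (m ^ k) := by
  refine ⟨Nat.pow_pos h.1, ?_⟩
  intro p hp hpd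
  exact h.2 p hp (hp.dvd_of_dvd_pow hpd)

lemma V_QQ (y : ℕ) : V (QQ y) := by
  unfold QQ
  apply V_mul
  · refine ⟨by norm_num, ?_⟩
    intro p hp hpd
    rw [(Nat.prime_dvd_prime_iff_eq hp Nat.prime_three).1 hpd]
  · refine ⟨?_, ?_⟩
    · apply Finset.prod_pos
      intro p hp
      rw [mem_filter] at hp
      exact hp.2.1.pos
    · intro p hp hpd
      obtain ⟨q, hq, hpq⟩ := (hp.prime.dvd_finsetProd_iff _).1 hpd
      rw [mem_filter] at hq
      rw [(Nat.prime_dvd_prime_iff_eq hp hq.2.1).1 hpq]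
      exact hq.2.2

lemma dvd_QQ (y : ℕ) {p : ℕ} (hp : p.Prime) (h3 : p % 4 = 3) (hy : p ≤ y) : p ∣ QQ y := by
  unfold QQ
  apply Dvd.dvd.mul_left
  exact Finset.dvd_prod_of_mem (fun p : ℕ => p) (mem_filter.2 ⟨mem_range.2 (by omega), hp, h3⟩)

lemma three_le_QQ (y : ℕ) : 3 ≤ QQ y := by
  unfold QQ
  apply Nat.le_mul_of_pos_right
  apply Finset.prod_pos
  intro p hp
  rw [mem_filter] at hp
  exact hp.2.1.pos

/-- The quantity in question: there is `n` such that five times the number of the primes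
`s ^ 2 + n ^ 2`, `s < n`, is less than `π(n)`. -/
theorem exists_n : ∃ n : ℕ, 1 < n ∧
    5 * (((range n).filter (fun s => (s ^ 2 + n ^ 2).Prime)).card : ℝ) <
      (Nat.primeCounting n : ℝ) := by
  obtain ⟨y, hy1, hT⟩ := exists_Vs 1000
  have hQ3 := three_le_QQ y
  have hVQ := V_QQ y
  obtain ⟨k, hk⟩ : ∃ k : ℕ, k = y ^ 2 + 9 := ⟨_, rfl⟩
  obtain ⟨z, hz⟩ : ∃ z : ℕ, z = QQ y ^ k := ⟨_, rfl⟩
  have hzk : k < z := by
    rw [hz]
    calc k < 2 ^ k := Nat.lt_two_pow_self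
      _ ≤ QQ y ^ k := Nat.pow_le_pow_left (by omega) k
  have hz9 : 9 ≤ z := by
    have : 0 ≤ y ^ 2 := Nat.zero_le _
    omega
  have hzy : y ^ 2 ≤ z := by omega
  have hVz : V z := by rw [hz]; exact V_pow hVQ k
  have hVn : V (z ^ 8) := V_pow hVz 8
  have hny : ∀ p, p.Prime → p % 4 = 3 → p ≤ y → p ∣ z ^ 8 := by
    intro p hp h3 hpy
    apply (dvd_QQ y hp h3 hpy).trans
    rw [hz, ← pow_mul]
    exact dvd_pow_self _ (by omega)
  have hRn : z < (z ^ 8) ^ 2 := by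
    rw [← pow_mul]
    calc z = z ^ 1 := (pow_one z).symm
      _ < z ^ (8 * 2) := Nat.pow_lt_pow_right (by omega) (by norm_num)
  have hzr : (9 : ℝ) ≤ (z : ℝ) := by exact_mod_cast hz9
  have hz0 : (0 : ℝ) < (z : ℝ) := by linarith
  have hy0 : (0 : ℝ) < (y : ℝ) := by exact_mod_cast hy1
  have hL0 : 0 < Real.log z := Real.log_pos (by linarith)
  -- the lower bound for the harmonic sum
  have hH : Real.log z / 2 ≤ H (z / y) := by
    refine le_trans ?_ (log_le_H (z / y))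
    have h1 : (z : ℝ) / y ≤ ((z / y + 1 : ℕ) : ℝ) := by
      rw [div_le_iff₀ hy0]
      have h2 := Nat.lt_div_mul_add hy1 (a := z)
      have h3 : z ≤ (z / y + 1) * y := by
        rw [add_mul, one_mul]
        exact h2.le
      exact_mod_cast h3
    have h4 : Real.log z ≤ 2 * Real.log ((z : ℝ) / y) := by
      rw [← Real.log_rpow (by positivity)]
      apply Real.log_le_log hz0
      rw [Real.rpow_ofNat, div_pow, le_div_iff₀ (by positivity)]
      have h5 : (y : ℝ) ^ 2 ≤ z := by exact_mod_cast hzy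
      nlinarith
    have h6 := Real.log_le_log (by positivity) h1
    linarith
  have hVH : 1000 * Real.log z / 12 ≤ Vs y * (H (z / y) / 6) := by
    have h1 : (1000 : ℝ) * (Real.log z / 12) ≤ Vs y * (H (z / y) / 6) := by
      apply mul_le_mul hT (by linarith) (by positivity) (Vs_nonneg y)
    linarith
  have hpos : 0 < 1000 * Real.log z / 12 := by positivity
  have hcount := count_le (z ^ 8) z y hVn hny (by omega) hRn (lt_of_lt_of_le hpos hVH)
  refine ⟨z ^ 8, Nat.one_lt_pow (by norm_num) (by omega), ?_⟩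
  have hpi := Chebyshev.pi_ge (z ^ 8)
  push_cast at hcount hpi ⊢
  rw [Real.log_pow] at hpi
  push_cast at hpi
  refine lt_of_lt_of_le ?_ hpi
  have h1 : (z : ℝ) ^ 8 / (Vs y * (H (z / y) / 6)) ≤ (z : ℝ) ^ 8 / (1000 * Real.log z / 12) :=
    div_le_div_of_nonneg_left (by positivity) hpos hVH
  have h2 : (z : ℝ) ^ 8 / (1000 * Real.log z / 12) = (z : ℝ) ^ 8 * 12 / (1000 * Real.log z) := by
    field_simp
  refine lt_of_le_of_lt (mul_le_mul_of_nonneg_left (hcount.trans (add_le_add_left h1 _))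
    (by norm_num)) ?_
  rw [lt_div_iff₀ (by positivity)]
  have h3 : 5 * ((z : ℝ) ^ 8 / (1000 * Real.log z / 12) + (z : ℝ) ^ 4) * (8 * Real.log z) =
      (z : ℝ) ^ 8 * (480 / 1000) + 40 * (z : ℝ) ^ 4 * Real.log z := by
    field_simp
    ring
  rw [h3]
  have h4 : Real.log z ≤ z := by
    have := Real.log_le_sub_one_of_pos hz0
    linarith
  have h5 : Real.log ((z : ℝ) ^ 8 + 1) ≤ 1 + 8 * z := by
    have h6 : Real.log ((z : ℝ) ^ 8 + 1) ≤ Real.log (2 * (z : ℝ) ^ 8) := by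
      apply Real.log_le_log (by positivity)
      have : (1 : ℝ) ≤ (z : ℝ) ^ 8 := one_le_pow₀ (by linarith)
      linarith
    rw [Real.log_mul (by norm_num) (by positivity), Real.log_pow] at h6
    push_cast at h6
    have := Real.log_two_lt_d9
    linarith
  have h7 := Real.log_two_gt_d9
  have h8 : 40 * (z : ℝ) ^ 4 * Real.log z ≤ 40 * (z : ℝ) ^ 5 := by
    have : 40 * (z : ℝ) ^ 4 * Real.log z ≤ 40 * (z : ℝ) ^ 4 * z :=
      mul_le_mul_of_nonneg_left h4 (by positivity)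
    calc _ ≤ 40 * (z : ℝ) ^ 4 * z := this
      _ = 40 * (z : ℝ) ^ 5 := by ring
  have h9 : 729 * (z : ℝ) ^ 5 ≤ (z : ℝ) ^ 8 := by
    have h10 : (9 : ℝ) ^ 3 ≤ (z : ℝ) ^ 3 := pow_le_pow_left₀ (by norm_num) hzr 3
    calc 729 * (z : ℝ) ^ 5 = 9 ^ 3 * (z : ℝ) ^ 5 := by norm_num
      _ ≤ (z : ℝ) ^ 3 * (z : ℝ) ^ 5 := mul_le_mul_of_nonneg_right h10 (by positivity)
      _ = (z : ℝ) ^ 8 := by ring
  have h11 : (z : ℝ) ≤ (z : ℝ) ^ 5 := by
    calc (z : ℝ) = (z : ℝ) ^ 1 := (pow_one _).symm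
      _ ≤ (z : ℝ) ^ 5 := pow_le_pow_right₀ (by linarith) (by norm_num)
  have h12 : (z : ℝ) ^ 8 * 0.6931 ≤ (z : ℝ) ^ 8 * Real.log 2 :=
    mul_le_mul_of_nonneg_left (by linarith) (by positivity)
  linarith

end Pool.Agent.V11292.Q
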