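import Pool.Agent.V11292.Q.UV

/-!
# Lower bounds for the sums over the numbers composed of the primes `1 mod 4` or `3 mod 4`
-/

set_option autoImplicit false

namespace Pool.Agent.V11292.Q

open Finset
open scoped Classical in
/-- The numbers `u ≤ X` composed of the primes `1 mod 4`. -/
noncomputable def US (X : ℕ) : Finset ℕ := (Ioc 0 X).filter U

open scoped Classical in
/-- The numbers `v ≤ X` composed of the primes `3 mod 4`. -/
noncomputable def VS (X : ℕ) : Finset ℕ := (Ioc 0 X).filter V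

open scoped Classical in
lemma mem_US {X u : ℕ} : u ∈ US X ↔ u ≤ X ∧ U u := by
  unfold US
  rw [mem_filter, mem_Ioc]
  constructor
  · rintro ⟨⟨_, h1⟩, h2⟩; exact ⟨h1, h2⟩
  · rintro ⟨h1, h2⟩; exact ⟨⟨h2.1, h1⟩, h2⟩

open scoped Classical in
lemma mem_VS {X v : ℕ} : v ∈ VS X ↔ v ≤ X ∧ V v := by
  unfold VS
  rw [mem_filter, mem_Ioc]
  constructor
  · rintro ⟨⟨_, h1⟩, h2⟩; exact ⟨h1, h2⟩
  · rintro ⟨h1, h2⟩; exact ⟨⟨h2.1, h1⟩, h2⟩

/-- The sum of `kk u`. -/
noncomputable def FU (X : ℕ) : ℝ := ∑ u ∈ US X, kk u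

/-- The sum of `1 / u`. -/
noncomputable def Us (X : ℕ) : ℝ := ∑ u ∈ US X, (u : ℝ)⁻¹

/-- The sum of `1 / v`. -/
noncomputable def Vs (X : ℕ) : ℝ := ∑ v ∈ VS X, (v : ℝ)⁻¹

lemma FU_nonneg (X : ℕ) : 0 ≤ FU X := Finset.sum_nonneg (fun u _ => kk_nonneg u)

lemma Us_nonneg (X : ℕ) : 0 ≤ Us X := Finset.sum_nonneg (fun u _ => by positivity)

lemma Vs_nonneg (X : ℕ) : 0 ≤ Vs X := Finset.sum_nonneg (fun u _ => by positivity)

lemma FU_mono : Monotone FU := by
  intro a b hab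
  unfold FU
  apply Finset.sum_le_sum_of_subset_of_nonneg
  · intro x hx
    rw [mem_US] at hx ⊢
    exact ⟨hx.1.trans hab, hx.2⟩
  · intro i _ _
    exact kk_nonneg i

lemma sum_half (N : ℕ) : ∑ a ∈ range N, ((2 : ℝ) ^ a)⁻¹ ≤ 2 := by
  have h := sum_geometric_two_le N
  refine le_trans (le_of_eq ?_) h
  apply Finset.sum_congr rfl
  intro i _
  rw [one_div, inv_pow]

lemma sum_inv_sq (N : ℕ) : ∑ t ∈ Ioc 0 N, ((t : ℝ) ^ 2)⁻¹ ≤ 2 := by
  rcases Nat.eq_zero_or_pos N with rfl | hN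
  · simp
  · have h := sum_Ioc_inv_sq_le_sub (α := ℝ) (one_ne_zero) (by omega : 1 ≤ N)
    have h1 : Ioc 0 N = insert 1 (Ioc 1 N) := by
      ext x
      rw [mem_insert, mem_Ioc, mem_Ioc]
      omega
    rw [h1, Finset.sum_insert (by simp)]
    have h2 : (0 : ℝ) ≤ (N : ℝ)⁻¹ := by positivity
    norm_num at h ⊢
    linarith

/-- A sum over a set is at most the sum over the triples through an injection. -/
lemma sum_le_inj {ι κ : Type*} (s : Finset ι) (t : Finset κ) (f : ι → ℝ) (F : κ → ℝ)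
    (φ : κ → ι) (hF : ∀ x ∈ t, 0 ≤ F x)
    (h : ∀ m ∈ s, 0 < f m → ∃ x ∈ t, φ x = m ∧ f m ≤ F x) :
    ∑ m ∈ s, f m ≤ ∑ x ∈ t, F x := by
  classical
  have h1 : ∑ m ∈ s, f m ≤ ∑ m ∈ s.filter (fun m => 0 < f m), f m := by
    rw [Finset.sum_filter]
    apply Finset.sum_le_sum
    intro m _
    split_ifs with h
    · exact le_refl _
    · exact not_lt.1 h
  refine h1.trans ?_
  have h' : ∀ m ∈ s.filter (fun m => 0 < f m), ∃ x ∈ t, φ x = m ∧ f m ≤ F x := by
    intro m hm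
    rw [mem_filter] at hm
    exact h m hm.1 hm.2
  rcases (s.filter (fun m => 0 < f m)).eq_empty_or_nonempty with he | ⟨m0, hm0⟩
  · rw [he, Finset.sum_empty]
    exact Finset.sum_nonneg hF
  obtain ⟨x0, -⟩ := h' m0 hm0
  have : Nonempty κ := ⟨x0⟩
  choose! g hg using h'
  have hinj : Set.InjOn g (s.filter (fun m => 0 < f m)) := by
    intro a ha b hb hab
    rw [← (hg a ha).2.1, ← (hg b hb).2.1, hab]
  calc ∑ m ∈ s.filter (fun m => 0 < f m), f m
      ≤ ∑ m ∈ s.filter (fun m => 0 < f m), F (g m) :=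
        Finset.sum_le_sum (fun m hm => (hg m hm).2.2)
    _ = ∑ x ∈ (s.filter (fun m => 0 < f m)).image g, F x := (Finset.sum_image hinj).symm
    _ ≤ ∑ x ∈ t, F x := by
      apply Finset.sum_le_sum_of_subset_of_nonneg
      · intro x hx
        rw [mem_image] at hx
        obtain ⟨m, hm, rfl⟩ := hx
        exact (hg m hm).1
      · intro x hx _
        exact hF x hx

lemma pow_lt_of_mul_le {a m X : ℕ} (h : 2 ^ a ≤ m) (hm : m ≤ X) : a < X :=
  (Nat.lt_two_pow_self).trans_le (h.trans hm)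

lemma S_le_FU (X : ℕ) : S X ≤ 4 * FU X := by
  have h1 : S X ≤ ∑ x ∈ (range X ×ˢ Ioc 0 X) ×ˢ US X,
      (((2 : ℝ) ^ x.1.1)⁻¹ * ((x.1.2 : ℝ) ^ 2)⁻¹) * kk x.2 := by
    unfold S
    apply sum_le_inj (φ := fun x : (ℕ × ℕ) × ℕ => 2 ^ x.1.1 * (x.1.2 * x.1.2 * x.2))
    · intro x _
      exact mul_nonneg (by positivity) (kk_nonneg _)
    · intro m hm hpos
      rw [mem_Ioc] at hm
      obtain ⟨a, v, u, h, hv, hu⟩ := decomp m hm.1
      have hr : rho m = rho v * rho u := by rw [h, rho_decomp a hv hu]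
      rcases rho_V hv with h1 | ⟨h1, t, ht⟩
      · rw [hr, h1] at hpos
        simp at hpos
      · have hle : 2 ^ a ≤ m ∧ v ≤ m ∧ u ≤ m := by
          have hv0 := hv.1
          have hu0 := hu.1
          have ha : 0 < 2 ^ a := by positivity
          refine ⟨?_, ?_, ?_⟩
          · rw [h]; exact Nat.le_mul_of_pos_right _ (by positivity)
          · rw [h]
            calc v ≤ v * u := Nat.le_mul_of_pos_right _ hu0
              _ ≤ _ := Nat.le_mul_of_pos_left _ ha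
          · rw [h]
            calc u ≤ v * u := Nat.le_mul_of_pos_left _ hv0
              _ ≤ _ := Nat.le_mul_of_pos_left _ ha
        have ht0 : 0 < t := by
          rcases Nat.eq_zero_or_pos t with h0 | h0
          · rw [h0] at ht
            have := hv.1
            omega
          · exact h0
        have htv : t ≤ v := by
          rw [ht]
          exact Nat.le_mul_of_pos_left _ ht0
        refine ⟨((a, t), u), ?_, ?_, ?_⟩
        · rw [mem_product, mem_product, mem_range, mem_Ioc, mem_US]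
          exact ⟨⟨pow_lt_of_mul_le hle.1 hm.2, ht0, by dsimp only; omega⟩, by dsimp only; omega, hu⟩
        · dsimp only
          rw [h, ht]
        · dsimp only
          rw [hr, h1, one_mul, h, ht]
          have h5 := rho_le_kk hu
          have h6 : (0 : ℝ) ≤ (2 ^ a)⁻¹ * ((t : ℝ) ^ 2)⁻¹ := by positivity
          have h7 := mul_le_mul_of_nonneg_left h5 h6
          refine le_trans (le_of_eq ?_) h7
          push_cast
          rw [mul_inv, mul_inv, ← sq]
          ring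
  refine h1.trans ?_
  rw [Finset.sum_product]
  simp_rw [← Finset.mul_sum]
  rw [← Finset.sum_mul, Finset.sum_product]
  simp_rw [← Finset.mul_sum]
  rw [← Finset.sum_mul]
  have h2 := sum_half X
  have h3 := sum_inv_sq X
  have h4 : 0 ≤ ∑ t ∈ Ioc 0 X, ((t : ℝ) ^ 2)⁻¹ := by positivity
  have h5 : (∑ a ∈ range X, ((2 : ℝ) ^ a)⁻¹) * ∑ t ∈ Ioc 0 X, ((t : ℝ) ^ 2)⁻¹ ≤ 4 := by
    calc _ ≤ (2 : ℝ) * 2 := mul_le_mul h2 h3 h4 (by norm_num)
      _ = 4 := by norm_num
  exact mul_le_mul_of_nonneg_right h5 (FU_nonneg X)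

lemma H_le_FU (X : ℕ) : H X / 6 ≤ FU X := by
  have h1 := le_S X
  have h2 := S_le_FU X
  linarith

lemma H_le_VU (X : ℕ) : H X ≤ 2 * (Vs X * Us X) := by
  have h1 : H X ≤ ∑ x ∈ range X ×ˢ (VS X ×ˢ US X),
      ((2 : ℝ) ^ x.1)⁻¹ * ((x.2.1 : ℝ)⁻¹ * (x.2.2 : ℝ)⁻¹) := by
    unfold H
    apply sum_le_inj (φ := fun x : ℕ × (ℕ × ℕ) => 2 ^ x.1 * (x.2.1 * x.2.2))
    · intro x _
      positivity
    · intro m hm hpos
      rw [mem_Ioc] at hm
      obtain ⟨a, v, u, h, hv, hu⟩ := decomp m hm.1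
      have hle : 2 ^ a ≤ m ∧ v ≤ m ∧ u ≤ m := by
        have hv0 := hv.1
        have hu0 := hu.1
        have ha : 0 < 2 ^ a := by positivity
        refine ⟨?_, ?_, ?_⟩
        · rw [h]; exact Nat.le_mul_of_pos_right _ (by positivity)
        · rw [h]
          calc v ≤ v * u := Nat.le_mul_of_pos_right _ hu0
            _ ≤ _ := Nat.le_mul_of_pos_left _ ha
        · rw [h]
          calc u ≤ v * u := Nat.le_mul_of_pos_left _ hv0
            _ ≤ _ := Nat.le_mul_of_pos_left _ ha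
      refine ⟨(a, (v, u)), ?_, ?_, ?_⟩
      · rw [mem_product, mem_product, mem_range, mem_VS, mem_US]
        exact ⟨pow_lt_of_mul_le hle.1 hm.2, ⟨by dsimp only; omega, hv⟩, by dsimp only; omega, hu⟩
      · dsimp only
        rw [h]
      · dsimp only
        rw [h]
        push_cast
        rw [mul_inv, mul_inv]
  refine h1.trans ?_
  rw [Finset.sum_product]
  simp_rw [← Finset.mul_sum]
  rw [← Finset.sum_mul, Finset.sum_product]
  simp_rw [← Finset.mul_sum]
  rw [← Finset.sum_mul]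
  exact mul_le_mul_of_nonneg_right (sum_half X) (mul_nonneg (Vs_nonneg X) (Us_nonneg X))

lemma Us_sq_le (X : ℕ) : Us X ^ 2 ≤ S (X ^ 2) := by
  have h1 : Us X ^ 2 = ∑ x ∈ US X ×ˢ US X, ((x.1 * x.2 : ℕ) : ℝ)⁻¹ := by
    rw [sq]
    unfold Us
    rw [Finset.sum_mul_sum, Finset.sum_product]
    apply Finset.sum_congr rfl
    intro a _
    apply Finset.sum_congr rfl
    intro b _
    push_cast
    rw [mul_inv]
  have hmaps : ∀ x ∈ US X ×ˢ US X, x.1 * x.2 ∈ Ioc 0 (X ^ 2) := by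
    intro x hx
    rw [mem_product, mem_US, mem_US] at hx
    rw [mem_Ioc, sq]
    exact ⟨Nat.mul_pos hx.1.2.1 hx.2.2.1, Nat.mul_le_mul hx.1.1 hx.2.1⟩
  rw [h1, ← Finset.sum_fiberwise_of_maps_to hmaps]
  unfold S
  apply Finset.sum_le_sum
  intro m hm
  rw [mem_Ioc] at hm
  have h2 : ∑ x ∈ (US X ×ˢ US X).filter (fun x => x.1 * x.2 = m), ((x.1 * x.2 : ℕ) : ℝ)⁻¹ =
      ((US X ×ˢ US X).filter (fun x => x.1 * x.2 = m)).card * (m : ℝ)⁻¹ := by
    rw [Finset.sum_congr rfl (g := fun _ => (m : ℝ)⁻¹)]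
    · rw [Finset.sum_const, nsmul_eq_mul]
    · intro x hx
      rw [mem_filter] at hx
      rw [hx.2]
  rw [h2]
  apply mul_le_mul_of_nonneg_right _ (by positivity)
  rcases Finset.eq_empty_or_nonempty ((US X ×ˢ US X).filter (fun x => x.1 * x.2 = m)) with h3 | h3
  · rw [h3]
    simpa using rho_nonneg hm.1
  · obtain ⟨x, hx⟩ := h3
    rw [mem_filter, mem_product, mem_US, mem_US] at hx
    have hU : U m := by
      rw [← hx.2]
      exact U_mul hx.1.1.2 hx.1.2.2
    rw [rho_U hU]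
    have h4 : ((US X ×ˢ US X).filter (fun x => x.1 * x.2 = m)).card ≤ m.divisors.card := by
      apply Finset.card_le_card_of_injOn (fun x => x.1)
      · intro y hy
        rw [mem_coe, mem_filter] at hy
        rw [mem_coe, Nat.mem_divisors]
        exact ⟨⟨y.2, hy.2.symm⟩, by omega⟩
      · intro y hy z hz hyz
        rw [mem_coe, mem_filter, mem_product, mem_US, mem_US] at hy hz
        dsimp only at hyz
        have h5 : y.1 * y.2 = y.1 * z.2 := by rw [hy.2, hyz, hz.2]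
        exact Prod.ext hyz (Nat.eq_of_mul_eq_mul_left hy.1.1.2.1 h5)
    exact_mod_cast h4

lemma Vs_ge (X : ℕ) (hX : 1 ≤ X) : H X / 12 ≤ Vs X ^ 2 := by
  have h1 := H_le_VU X
  have h2 := Us_sq_le X
  have h3 := S_le (X ^ 2)
  have h4 := H_sq_le hX
  have h5 := one_le_H hX
  have h6 : H X ^ 2 ≤ (2 * (Vs X * Us X)) ^ 2 := by
    apply pow_le_pow_left₀ (by linarith) h1
  have h7 : (2 * (Vs X * Us X)) ^ 2 = 4 * Vs X ^ 2 * Us X ^ 2 := by ring
  have h8 : 4 * Vs X ^ 2 * Us X ^ 2 ≤ 4 * Vs X ^ 2 * (3 * H X) := by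
    apply mul_le_mul_of_nonneg_left (by linarith) (by positivity)
  have h9 : H X * H X ≤ (12 * Vs X ^ 2) * H X := by
    nlinarith
  have h10 := le_of_mul_le_mul_right h9 (by linarith)
  linarith

lemma exists_Vs (T : ℝ) : ∃ X : ℕ, 1 ≤ X ∧ T ≤ Vs X := by
  obtain ⟨X, hX⟩ := exists_nat_ge (Real.exp (12 * T ^ 2) + 1)
  have h0 := Real.exp_pos (12 * T ^ 2)
  have hX1 : (1 : ℝ) ≤ X := by linarith
  have hX1' : 1 ≤ X := by exact_mod_cast hX1
  refine ⟨X, hX1', ?_⟩
  have h1 := Vs_ge X hX1'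
  have h2 := log_le_H X
  have h3 : 12 * T ^ 2 ≤ Real.log ((X + 1 : ℕ) : ℝ) := by
    rw [Real.le_log_iff_exp_le (by positivity)]
    push_cast
    linarith
  have h4 : T ^ 2 ≤ Vs X ^ 2 := by linarith
  exact le_trans (le_abs_self T) ((sq_le_sq.1 h4).trans (le_of_eq (abs_of_nonneg (Vs_nonneg X))))

end Pool.Agent.V11292.Q
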