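import Pool.Agent.V11292.Q.Smooth
import Pool.Agent.V11292.Q.Sums

/-!
# The sieve for the numbers `s ^ 2 + n ^ 2`
-/

set_option autoImplicit false

namespace Pool.Agent.V11292.Q

open Finset ArithmeticFunction BoundingSieve
open Pool.Agent.Helper923.PPS

/-- The sifting primes. -/
def sp (n R : ℕ) : Finset ℕ :=
  (range (R + 1)).filter (fun p => p.Prime ∧ ((p % 4 = 1 ∧ ¬ p ∣ n) ∨ (p % 4 = 3 ∧ p ∣ n)))

lemma mem_sp {n R p : ℕ} : p ∈ sp n R ↔
    p ≤ R ∧ p.Prime ∧ ((p % 4 = 1 ∧ ¬ p ∣ n) ∨ (p % 4 = 3 ∧ p ∣ n)) := by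
  unfold sp
  rw [mem_filter, mem_range, Nat.lt_succ_iff]

/-- The product of the sifting primes. -/
def PP (n R : ℕ) : ℕ := ∏ p ∈ sp n R, p

lemma PP_sqf (n R : ℕ) : Squarefree (PP n R) := by
  unfold PP
  refine Finset.squarefree_prod_of_pairwise_isCoprime (fun p hp q hq hpq ↦ ?_) (fun p hp => ?_)
  · rw [mem_coe, mem_sp] at hp hq
    rw [Function.onFun, ← Nat.coprime_iff_isRelPrime]
    exact (Nat.coprime_primes hp.2.1 hq.2.1).2 hpq
  · rw [mem_sp] at hp
    exact hp.2.1.prime.squarefree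

lemma prime_dvd_PP {n R p : ℕ} (hp : p.Prime) : p ∣ PP n R ↔ p ∈ sp n R := by
  unfold PP
  constructor
  · intro h
    obtain ⟨q, hq, hpq⟩ := (hp.prime.dvd_finsetProd_iff _).1 h
    have h2 := (mem_sp.1 hq).2.1
    rwa [(Nat.prime_dvd_prime_iff_eq hp h2).1 hpq]
  · intro h
    exact Finset.dvd_prod_of_mem _ h

lemma good_of_dvd {n R d : ℕ} (h : d ∣ PP n R) : Good n d := by
  refine ⟨(PP_sqf n R).squarefree_of_dvd h, ?_⟩
  intro p hp hpd
  exact (mem_sp.1 ((prime_dvd_PP hp).1 (hpd.trans h))).2.2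

/-- The density function. -/
noncomputable def nuF : ArithmeticFunction ℝ :=
  prodPrimeFactors (fun p => (w p : ℝ) * (p : ℝ)⁻¹)

lemma nuF_prime {p : ℕ} (hp : p.Prime) : nuF p = (w p : ℝ) * (p : ℝ)⁻¹ := by
  unfold nuF
  rw [prodPrimeFactors_apply hp.ne_zero, hp.primeFactors, Finset.prod_singleton]

lemma nuF_sqf {d : ℕ} (h : Squarefree d) : nuF d = (W d : ℝ) * (d : ℝ)⁻¹ := by
  unfold nuF
  rw [prodPrimeFactors_apply h.ne_zero, Finset.prod_mul_distrib]
  unfold W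
  push_cast
  congr 1
  rw [Finset.prod_inv_distrib]
  congr 1
  rw [← Nat.cast_prod, Nat.prod_primeFactors_of_squarefree h]

/-- The sieve. -/
noncomputable def sv (n R : ℕ) : BoundingSieve where
  support := (range n).image (fun s => s ^ 2 + n ^ 2)
  prodPrimes := PP n R
  prodPrimes_squarefree := PP_sqf n R
  weights := fun _ => 1
  weights_nonneg := fun _ => zero_le_one
  totalMass := n
  nu := nuF
  nu_mult := IsMultiplicative.prodPrimeFactors _
  nu_pos_of_prime := by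
    intro p hp _
    rw [nuF_prime hp]
    have h1 : (0 : ℝ) < w p := by exact_mod_cast w_pos p
    have h2 : (0 : ℝ) < p := by exact_mod_cast hp.pos
    positivity
  nu_lt_one_of_prime := by
    intro p hp _
    rw [nuF_prime hp, ← div_eq_mul_inv, div_lt_one (by exact_mod_cast hp.pos)]
    exact_mod_cast w_lt hp

lemma sq_inj (n : ℕ) : Function.Injective (fun s : ℕ => s ^ 2 + n ^ 2) := by
  intro a b h
  dsimp only at h
  have h1 : a ^ 2 = b ^ 2 := by omega
  exact (Nat.pow_left_inj two_ne_zero).1 h1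

lemma multSum_eq (n R d : ℕ) : (sv n R).multSum d =
    (((range n).filter (fun s => d ∣ s ^ 2 + n ^ 2)).card : ℝ) := by
  rw [multSum]
  show ∑ m ∈ (range n).image (fun s => s ^ 2 + n ^ 2), (if d ∣ m then (1 : ℝ) else 0) = _
  rw [Finset.sum_image (fun a _ b _ h => sq_inj n h), Finset.sum_boole]

lemma rem_le (n R d : ℕ) (hd : d ∣ PP n R) : |(sv n R).rem d| ≤ W d := by
  have hg := good_of_dvd hd
  have h1 := count_bound n n d (Nat.pos_of_ne_zero hg.1.ne_zero)
  rw [r_good hg] at h1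
  rw [rem, multSum_eq]
  show |_ - nuF d * (n : ℝ)| ≤ _
  rw [nuF_sqf hg.1]
  refine le_trans (le_of_eq ?_) h1
  congr 1
  rw [div_eq_mul_inv]
  ring

lemma rem_lcm_le (n R d1 d2 : ℕ) (h1 : d1 ∣ PP n R) (h2 : d2 ∣ PP n R) :
    |(sv n R).rem (Nat.lcm d1 d2)| ≤ (W d1 : ℝ) * (W d2 : ℝ) := by
  refine (rem_le n R _ (Nat.lcm_dvd h1 h2)).trans ?_
  have h3 := W_lcm_le d1 d2 (good_of_dvd h1).1.ne_zero (good_of_dvd h2).1.ne_zero
  exact_mod_cast h3

lemma err_le (n R : ℕ) : ∑ d ∈ ((sv n R).prodPrimes.divisors).filter (fun d : ℕ => (d : ℝ) ≤ R),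
    ((sv n R).nu d)⁻¹ * (W d : ℝ) ≤ (R : ℝ) ^ 2 := by
  have h1 : ∀ d ∈ ((sv n R).prodPrimes.divisors).filter (fun d : ℕ => (d : ℝ) ≤ R),
      ((sv n R).nu d)⁻¹ * (W d : ℝ) ≤ R := by
    intro d hd
    rw [mem_filter, Nat.mem_divisors] at hd
    have hg := good_of_dvd hd.1.1
    show (nuF d)⁻¹ * (W d : ℝ) ≤ R
    rw [nuF_sqf hg.1, mul_inv, inv_inv]
    have hW : (W d : ℝ) ≠ 0 := by
      have := W_pos d
      positivity
    rw [mul_right_comm, inv_mul_cancel₀ hW, one_mul]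
    exact hd.2
  refine (Finset.sum_le_card_nsmul _ _ _ h1).trans ?_
  rw [nsmul_eq_mul, sq]
  apply mul_le_mul_of_nonneg_right _ (by positivity)
  have h2 : ((sv n R).prodPrimes.divisors).filter (fun d : ℕ => (d : ℝ) ≤ R) ⊆ Ioc 0 R := by
    intro d hd
    rw [mem_filter, Nat.mem_divisors] at hd
    rw [mem_Ioc]
    exact ⟨Nat.pos_of_ne_zero (good_of_dvd hd.1.1).1.ne_zero, by exact_mod_cast hd.2⟩
  have h3 := Finset.card_le_card h2
  rw [Nat.card_Ioc, Nat.sub_zero] at h3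
  exact_mod_cast h3

/-- The Selberg sum is large when `n` is a product of primes `3 mod 4` divisible by all of the
primes `3 mod 4` up to `y`. -/
lemma selS_ge (n R y : ℕ) (hn : V n) (hny : ∀ p, p.Prime → p % 4 = 3 → p ≤ y → p ∣ n) :
    Vs y * (H (R / y) / 6) ≤ selS (sv n R) R := by
  have h1 : ∑ m ∈ (VS y ×ˢ US (R / y)).image (fun x => x.1 * x.2), kk m ≤ selS (sv n R) R := by
    apply smooth_le (sv n R) R kk
    · intro p hp _
      show nuF p = kk p
      rw [nuF_prime hp, kk_prime hp]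
    · intro p hp
      exact kk_lt_one hp
    · exact kk_nonneg
    · intro m hm
      rw [mem_image] at hm
      obtain ⟨⟨v, u⟩, hx, rfl⟩ := hm
      rw [mem_product, mem_VS, mem_US] at hx
      dsimp only at hx ⊢
      obtain ⟨⟨hvy, hv⟩, huR, hu⟩ := hx
      have hle : v * u ≤ R := by
        calc v * u ≤ y * (R / y) := Nat.mul_le_mul hvy huR
          _ ≤ R := Nat.mul_div_le R y
      refine ⟨Nat.mul_pos hv.1 hu.1, hle, ?_⟩
      intro p hp hpd
      show p ∣ PP n R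
      rw [prime_dvd_PP hp, mem_sp]
      refine ⟨(Nat.le_of_dvd (Nat.mul_pos hv.1 hu.1) hpd).trans hle, hp, ?_⟩
      rcases (Nat.Prime.dvd_mul hp).1 hpd with h | h
      · right
        have h3 := hv.2 p hp h
        exact ⟨h3, hny p hp h3 ((Nat.le_of_dvd hv.1 h).trans hvy)⟩
      · left
        have h3 := hu.2 p hp h
        refine ⟨h3, ?_⟩
        intro h4
        have := hn.2 p hp h4
        omega
  refine le_trans ?_ h1
  rw [Finset.sum_image]
  · rw [Finset.sum_product]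
    have h2 : ∀ v ∈ VS y, ∑ u ∈ US (R / y), kk (v * u) = (v : ℝ)⁻¹ * FU (R / y) := by
      intro v hv
      rw [mem_VS] at hv
      unfold FU
      rw [Finset.mul_sum]
      apply Finset.sum_congr rfl
      intro u _
      rw [map_mul, kk_V hv.2]
    rw [Finset.sum_congr rfl h2, ← Finset.sum_mul]
    exact mul_le_mul_of_nonneg_left (H_le_FU _) (Vs_nonneg y)
  · intro a ha b hb hab
    rw [mem_coe, mem_product, mem_VS, mem_US] at ha hb
    dsimp only at hab
    have h3 : a.1 ∣ b.1 := by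
      have h4 : a.1 ∣ b.1 * b.2 := by rw [← hab]; exact Dvd.intro _ rfl
      exact (coprime_VU ha.1.2 hb.2.2).dvd_of_dvd_mul_right h4
    have h5 : b.1 ∣ a.1 := by
      have h4 : b.1 ∣ a.1 * a.2 := by rw [hab]; exact Dvd.intro _ rfl
      exact (coprime_VU hb.1.2 ha.2.2).dvd_of_dvd_mul_right h4
    have h6 := Nat.dvd_antisymm h3 h5
    rw [h6] at hab
    exact Prod.ext h6 (Nat.eq_of_mul_eq_mul_left hb.1.2.1 hab)

/-- The number of the primes `s ^ 2 + n ^ 2` is at most the sifted sum. -/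
lemma count_le_sifted (n R : ℕ) (hR : R < n ^ 2) :
    (((range n).filter (fun s => (s ^ 2 + n ^ 2).Prime)).card : ℝ) ≤ (sv n R).siftedSum := by
  rw [siftedSum]
  show _ ≤ ∑ m ∈ (range n).image (fun s => s ^ 2 + n ^ 2),
    (if Nat.Coprime (PP n R) m then (1 : ℝ) else 0)
  rw [Finset.sum_image (fun a _ b _ h => sq_inj n h), Finset.sum_boole]
  have h : (range n).filter (fun s => (s ^ 2 + n ^ 2).Prime) ⊆
      (range n).filter (fun s => Nat.Coprime (PP n R) (s ^ 2 + n ^ 2)) := by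
    intro s hs
    rw [mem_filter] at hs ⊢
    refine ⟨hs.1, ?_⟩
    rw [Nat.coprime_comm, Nat.Prime.coprime_iff_not_dvd hs.2, prime_dvd_PP hs.2, mem_sp]
    intro h
    have := h.1
    have h2 : 0 ≤ s ^ 2 := Nat.zero_le _
    omega
  exact_mod_cast Finset.card_le_card h

theorem count_le (n R y : ℕ) (hn : V n) (hny : ∀ p, p.Prime → p % 4 = 3 → p ≤ y → p ∣ n)
    (hR1 : 1 ≤ R) (hR : R < n ^ 2) (hpos : 0 < Vs y * (H (R / y) / 6)) :
    (((range n).filter (fun s => (s ^ 2 + n ^ 2).Prime)).card : ℝ) ≤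
      n / (Vs y * (H (R / y) / 6)) + (R : ℝ) ^ 4 := by
  refine (count_le_sifted n R hR).trans ?_
  have h1 : (1 : ℝ) ≤ (R : ℝ) := by
    exact_mod_cast hR1
  have h2 := siftedSum_le (sv n R) (R : ℝ) h1 (fun d => (W d : ℝ)) (fun d => by positivity)
    (fun d1 d2 h1 h2 => rem_lcm_le n R d1 d2 h1 h2)
  refine h2.trans ?_
  have h3 := selS_ge n R y hn hny
  have h4 := err_le n R
  have h5 : (sv n R).totalMass / selS (sv n R) R ≤ n / (Vs y * (H (R / y) / 6)) := by
    show (n : ℝ) / selS (sv n R) R ≤ _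
    exact div_le_div_of_nonneg_left (by positivity) hpos h3
  have h6 : 0 ≤ ∑ d ∈ ((sv n R).prodPrimes.divisors).filter (fun d : ℕ => (d : ℝ) ≤ R),
      ((sv n R).nu d)⁻¹ * (W d : ℝ) := by
    apply Finset.sum_nonneg
    intro d hd
    rw [mem_filter, Nat.mem_divisors] at hd
    have := nu_pos_of_dvd_prodPrimes (s := sv n R) hd.1.1
    positivity
  have h7 := pow_le_pow_left₀ h6 h4 2
  rw [← pow_mul] at h7
  exact add_le_add h5 h7

end Pool.Agent.V11292.Q
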