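import Mathlib

/-!
# The number of roots of `x ^ 2 + n ^ 2` modulo `d`
-/

set_option autoImplicit false

namespace Pool.Agent.V11292.Q

open Finset

/-- The number of the roots of `x ^ 2 + n ^ 2` modulo `d`. -/
def r (n d : ℕ) : ℕ := ((range d).filter (fun x => d ∣ x ^ 2 + n ^ 2)).card

/-- The number of roots modulo a prime `p`. -/
def w (p : ℕ) : ℕ := if p % 4 = 1 then 2 else 1

/-- The number of roots modulo a squarefree number. -/
def W (d : ℕ) : ℕ := ∏ p ∈ d.primeFactors, w p

lemma w_pos (p : ℕ) : 1 ≤ w p := by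
  unfold w
  split_ifs <;> norm_num

lemma w_le (p : ℕ) : w p ≤ 2 := by
  unfold w
  split_ifs <;> norm_num

lemma W_pos (d : ℕ) : 1 ≤ W d := by
  unfold W
  exact Finset.one_le_prod' (fun p _ => w_pos p)

lemma W_one : W 1 = 1 := by simp [W]

lemma W_mul {a b : ℕ} (h : Nat.Coprime a b) : W (a * b) = W a * W b := by
  unfold W
  rw [Nat.Coprime.primeFactors_mul h, Finset.prod_union h.disjoint_primeFactors]

lemma W_lcm_le (a b : ℕ) (ha : a ≠ 0) (hb : b ≠ 0) : W (Nat.lcm a b) ≤ W a * W b := by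
  unfold W
  have hsub : (Nat.lcm a b).primeFactors ⊆ a.primeFactors ∪ b.primeFactors := by
    intro p hp
    rw [Nat.mem_primeFactors] at hp
    rw [mem_union, Nat.mem_primeFactors, Nat.mem_primeFactors]
    have h2 : p ∣ a * b := hp.2.1.trans (Nat.lcm_dvd_mul a b)
    rcases (Nat.Prime.dvd_mul hp.1).1 h2 with h | h
    · left; exact ⟨hp.1, h, ha⟩
    · right; exact ⟨hp.1, h, hb⟩
  have h1 : 1 ≤ ∏ p ∈ a.primeFactors ∩ b.primeFactors, w p :=
    Finset.one_le_prod' (fun p _ => w_pos p)
  calc ∏ p ∈ (Nat.lcm a b).primeFactors, w p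
      ≤ ∏ p ∈ a.primeFactors ∪ b.primeFactors, w p :=
        Finset.prod_le_prod_of_subset_of_one_le' hsub (fun p _ _ => w_pos p)
    _ ≤ (∏ p ∈ a.primeFactors ∪ b.primeFactors, w p) *
        ∏ p ∈ a.primeFactors ∩ b.primeFactors, w p := Nat.le_mul_of_pos_right _ h1
    _ = _ := Finset.prod_union_inter

lemma r_eq (n d : ℕ) [NeZero d] :
    r n d = Fintype.card {x : ZMod d // x ^ 2 + (n : ZMod d) ^ 2 = 0} := by
  unfold r
  rw [Fintype.card_subtype]
  apply Finset.card_bij (fun (x : ℕ) _ => (x : ZMod d))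
  · intro x hx
    rw [mem_filter, mem_range] at hx
    rw [mem_filter]
    refine ⟨mem_univ _, ?_⟩
    have h := (ZMod.natCast_eq_zero_iff (x ^ 2 + n ^ 2) d).2 hx.2
    push_cast at h
    exact h
  · intro x hx y hy hxy
    rw [mem_filter, mem_range] at hx hy
    have h := (ZMod.natCast_eq_natCast_iff' x y d).1 hxy
    rwa [Nat.mod_eq_of_lt hx.1, Nat.mod_eq_of_lt hy.1] at h
  · intro x hx
    rw [mem_filter] at hx
    refine ⟨x.val, ?_, ZMod.natCast_zmod_val x⟩
    rw [mem_filter, mem_range]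
    refine ⟨ZMod.val_lt x, ?_⟩
    rw [← ZMod.natCast_eq_zero_iff]
    push_cast
    rw [ZMod.natCast_zmod_val]
    exact hx.2

lemma r_mul (n : ℕ) {a b : ℕ} (ha : a ≠ 0) (hb : b ≠ 0) (h : Nat.Coprime a b) :
    r n (a * b) = r n a * r n b := by
  have : NeZero a := ⟨ha⟩
  have : NeZero b := ⟨hb⟩
  have : NeZero (a * b) := ⟨mul_ne_zero ha hb⟩
  rw [r_eq, r_eq, r_eq, ← Fintype.card_prod]
  apply Fintype.card_congr
  let e := ZMod.chineseRemainder h
  refine
    { toFun := fun x => (⟨(e x.1).1, ?_⟩, ⟨(e x.1).2, ?_⟩)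
      invFun := fun y => ⟨e.symm (y.1.1, y.2.1), ?_⟩
      left_inv := ?_
      right_inv := ?_ }
  · have h1 := congrArg e x.2
    rw [map_add, map_pow, map_pow, map_natCast, map_zero] at h1
    have h2 := congrArg Prod.fst h1
    simpa using h2
  · have h1 := congrArg e x.2
    rw [map_add, map_pow, map_pow, map_natCast, map_zero] at h1
    have h2 := congrArg Prod.snd h1
    simpa using h2
  · apply e.injective
    rw [map_add, map_pow, map_pow, map_natCast, map_zero, e.apply_symm_apply]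
    ext
    · simpa using y.1.2
    · simpa using y.2.2
  · intro x
    apply Subtype.ext
    simp
  · intro y
    simp

lemma r_prime_dvd {n p : ℕ} (hp : p.Prime) (hpn : p ∣ n) : r n p = 1 := by
  unfold r
  rw [Finset.card_eq_one]
  refine ⟨0, ?_⟩
  ext x
  rw [mem_filter, mem_range, mem_singleton]
  constructor
  · rintro ⟨h1, h2⟩
    have h3 : p ∣ x ^ 2 := (Nat.dvd_add_left (dvd_pow hpn two_ne_zero)).1 h2
    have h4 := hp.dvd_of_dvd_pow h3
    exact Nat.eq_zero_of_dvd_of_lt h4 h1
  · rintro rfl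
    refine ⟨hp.pos, ?_⟩
    rw [zero_pow two_ne_zero, zero_add]
    exact dvd_pow hpn two_ne_zero

lemma r_prime_one {n p : ℕ} (hp : p.Prime) (h1 : p % 4 = 1) (hpn : ¬ p ∣ n) : r n p = 2 := by
  have : Fact p.Prime := ⟨hp⟩
  rw [r_eq]
  obtain ⟨i, hi⟩ := (ZMod.exists_sq_eq_neg_one_iff (p := p)).2 (by omega)
  have hn0 : (n : ZMod p) ≠ 0 := by
    rw [Ne, ZMod.natCast_eq_zero_iff]
    exact hpn
  have hi2 : i ^ 2 = -1 := by rw [sq]; exact hi.symm
  have hi0 : i ≠ 0 := by
    rintro rfl
    simp at hi2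
  have h2 : (2 : ZMod p) ≠ 0 := by
    have h3 : ((2 : ℕ) : ZMod p) ≠ 0 := by
      rw [Ne, ZMod.natCast_eq_zero_iff]
      intro h4
      have := (Nat.prime_dvd_prime_iff_eq hp Nat.prime_two).1 h4
      omega
    exact_mod_cast h3
  rw [Fintype.card_subtype, Finset.card_eq_two]
  refine ⟨i * n, -(i * n), ?_, ?_⟩
  · intro h
    have h3 : (2 : ZMod p) * (i * n) = 0 := by
      linear_combination h
    exact (mul_ne_zero h2 (mul_ne_zero hi0 hn0)) h3
  · ext x
    rw [mem_filter, mem_insert, mem_singleton]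
    constructor
    · rintro ⟨-, hx⟩
      have h3 : (x - i * n) * (x + i * n) = 0 := by
        linear_combination hx - (n : ZMod p) ^ 2 * hi2
      rcases mul_eq_zero.1 h3 with h4 | h4
      · left; linear_combination h4
      · right; linear_combination h4
    · rintro (rfl | rfl)
      · exact ⟨mem_univ _, by linear_combination (n : ZMod p) ^ 2 * hi2⟩
      · exact ⟨mem_univ _, by linear_combination (n : ZMod p) ^ 2 * hi2⟩

/-- The squarefree numbers whose prime factors are either `1 mod 4` and coprime to `n`, or `3 mod 4`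
and divisors of `n`. -/
def Good (n d : ℕ) : Prop :=
  Squarefree d ∧ ∀ p, p.Prime → p ∣ d → (p % 4 = 1 ∧ ¬ p ∣ n) ∨ (p % 4 = 3 ∧ p ∣ n)

lemma r_good {n d : ℕ} (h : Good n d) : r n d = W d := by
  obtain ⟨hs, hp⟩ := h
  induction d using Nat.recOnPosPrimePosCoprime with
  | prime_pow p k hpr hk =>
    have hk1 : k = 1 := by
      rcases (Nat.squarefree_pow_iff hpr.ne_one hk.ne').1 hs with ⟨-, h⟩
      exact h
    subst hk1
    rw [pow_one]
    have hW : W p = w p := by
      unfold W
      rw [hpr.primeFactors, prod_singleton]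
    rw [hW]
    unfold w
    rcases hp p hpr (by rw [pow_one]) with ⟨h1, h2⟩ | ⟨h1, h2⟩
    · rw [if_pos h1, r_prime_one hpr h1 h2]
    · rw [if_neg (by omega), r_prime_dvd hpr h2]
  | zero => exact absurd hs not_squarefree_zero
  | one => simp [r, W]
  | coprime a b ha hb hab iha ihb =>
    rw [r_mul n (by omega) (by omega) hab, W_mul hab,
      iha (hs.squarefree_of_dvd (Dvd.intro _ rfl)) (fun p h1 h2 => hp p h1 (h2.mul_right b)),
      ihb (hs.squarefree_of_dvd (Dvd.intro_left _ rfl)) (fun p h1 h2 => hp p h1 (h2.mul_left a))]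

/-- The count of the `s < N` with `d ∣ s ^ 2 + n ^ 2`. -/
lemma count_bound (n N d : ℕ) (hd : 0 < d) :
    |(((range N).filter (fun s => d ∣ s ^ 2 + n ^ 2)).card : ℝ) - N * r n d / d| ≤ r n d := by
  have hper : Function.Periodic (fun s => d ∣ s ^ 2 + n ^ 2) d := by
    intro s
    have h1 : (s + d) ^ 2 + n ^ 2 = d * (2 * s + d) + (s ^ 2 + n ^ 2) := by ring
    simp only [eq_iff_iff]
    rw [h1]
    exact (Nat.dvd_add_right (Dvd.intro _ rfl))
  have hblock : ∀ a, ((Ico a (a + d)).filter (fun s => d ∣ s ^ 2 + n ^ 2)).card = r n d := by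
    intro a
    rw [Nat.filter_Ico_card_eq_of_periodic a d _ hper, Nat.count_eq_card_filter_range]
    rfl
  have hq : ∀ q, ((range (d * q)).filter (fun s => d ∣ s ^ 2 + n ^ 2)).card = q * r n d := by
    intro q
    induction q with
    | zero => simp
    | succ q ih =>
      have h1 : range (d * (q + 1)) = range (d * q) ∪ Ico (d * q) (d * q + d) := by
        ext x
        simp only [mem_union, mem_range, mem_Ico]
        rw [mul_add, mul_one]
        omega
      rw [h1, filter_union, card_union_of_disjoint, ih, hblock]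
      · ring
      · apply Finset.disjoint_filter_filter
        rw [Finset.disjoint_left]
        intro x hx hx'
        rw [mem_range] at hx
        rw [mem_Ico] at hx'
        omega
  have hN : d * (N / d) + N % d = N := Nat.div_add_mod N d
  have hlt : N % d < d := Nat.mod_lt _ hd
  have h1 : range N = range (d * (N / d)) ∪ Ico (d * (N / d)) N := by
    ext x
    simp only [mem_union, mem_range, mem_Ico]
    omega
  have h2 : ((range N).filter (fun s => d ∣ s ^ 2 + n ^ 2)).card = N / d * r n d +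
      ((Ico (d * (N / d)) N).filter (fun s => d ∣ s ^ 2 + n ^ 2)).card := by
    rw [← hq (N / d)]
    conv_lhs => rw [h1]
    rw [filter_union, card_union_of_disjoint]
    apply Finset.disjoint_filter_filter
    rw [Finset.disjoint_left]
    intro x hx hx'
    rw [mem_range] at hx
    rw [mem_Ico] at hx'
    omega
  have h3 : ((Ico (d * (N / d)) N).filter (fun s => d ∣ s ^ 2 + n ^ 2)).card ≤ r n d := by
    rw [← hblock (d * (N / d))]
    apply Finset.card_le_card
    apply Finset.filter_subset_filter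
    intro x hx
    rw [mem_Ico] at hx ⊢
    omega
  have h4 : (N : ℝ) = d * (N / d : ℕ) + (N % d : ℕ) := by exact_mod_cast hN.symm
  have hd' : (0 : ℝ) < d := by exact_mod_cast hd
  have h5 : (N : ℝ) * r n d / d = (N / d : ℕ) * r n d + (N % d : ℕ) * r n d / d := by
    rw [h4]
    field_simp
  have h6 : ((N % d : ℕ) : ℝ) * r n d / d ≤ r n d := by
    rw [div_le_iff₀ hd']
    have : ((N % d : ℕ) : ℝ) ≤ d := by exact_mod_cast hlt.le
    nlinarith [Nat.cast_nonneg (α := ℝ) (r n d)]
  have h7 : 0 ≤ ((N % d : ℕ) : ℝ) * r n d / d := by positivity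
  have h8 : (((Ico (d * (N / d)) N).filter (fun s => d ∣ s ^ 2 + n ^ 2)).card : ℝ) ≤ r n d := by
    exact_mod_cast h3
  rw [h2, h5]
  push_cast
  rw [abs_le]
  constructor <;> linarith [Nat.cast_nonneg (α := ℝ)
    ((Ico (d * (N / d)) N).filter (fun s => d ∣ s ^ 2 + n ^ 2)).card]

end Pool.Agent.V11292.Q
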