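import Pool.Agent.Helper923.PPS.Selberg

/-!
# Selberg's sieve with an error function
-/

set_option autoImplicit false

open Finset Nat ArithmeticFunction BoundingSieve
open scoped ArithmeticFunction.Moebius

namespace Pool.Agent.V11292.Q

open Pool.Agent.Helper923.PPS

variable (s : BoundingSieve) (R : ℝ)

theorem siftedSum_le (hR : 1 ≤ R) (E : ℕ → ℝ) (hE : ∀ d, 0 ≤ E d)
    (hrem : ∀ d1 d2, d1 ∣ s.prodPrimes → d2 ∣ s.prodPrimes →
      |s.rem (Nat.lcm d1 d2)| ≤ E d1 * E d2) :
    s.siftedSum ≤ s.totalMass / selS s R +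
      (∑ d ∈ (divisors s.prodPrimes).filter (fun d : ℕ => (d : ℝ) ≤ R),
        (s.nu d)⁻¹ * E d) ^ 2 := by
  have h := siftedSum_le_mainSum_errSum_of_upperMoebius (s := s)
    (lambdaSquared (selW s R)) (upperMoebius_lambdaSquared _ (selW_one s R hR))
  rw [mainSum_selW s R hR] at h
  refine h.trans ?_
  rw [div_eq_mul_inv]
  gcongr
  unfold errSum
  have h1 : ∀ d ∈ divisors s.prodPrimes, |lambdaSquared (selW s R) d| * |s.rem d| ≤
      ∑ d1 ∈ divisors s.prodPrimes, ∑ d2 ∈ divisors s.prodPrimes,
        if d = Nat.lcm d1 d2 then (|selW s R d1| * E d1) * (|selW s R d2| * E d2) else 0 := by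
    intro d hd
    have hdP := Nat.dvd_of_mem_divisors hd
    have h2 : |lambdaSquared (selW s R) d| ≤ ∑ d1 ∈ divisors s.prodPrimes,
        ∑ d2 ∈ divisors s.prodPrimes,
        if d = Nat.lcm d1 d2 then (|selW s R d1| * |selW s R d2|) else 0 := by
      unfold lambdaSquared
      refine (Finset.abs_sum_le_sum_abs _ _).trans ?_
      calc ∑ d1 ∈ d.divisors, |∑ d2 ∈ d.divisors,
            if d = Nat.lcm d1 d2 then selW s R d1 * selW s R d2 else 0|
          ≤ ∑ d1 ∈ d.divisors, ∑ d2 ∈ d.divisors,
            if d = Nat.lcm d1 d2 then |selW s R d1| * |selW s R d2| else 0 := by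
            apply Finset.sum_le_sum
            intro d1 _
            refine (Finset.abs_sum_le_sum_abs _ _).trans ?_
            apply Finset.sum_le_sum
            intro d2 _
            split_ifs
            · rw [abs_mul]
            · simp
        _ ≤ ∑ d1 ∈ d.divisors, ∑ d2 ∈ divisors s.prodPrimes,
            if d = Nat.lcm d1 d2 then |selW s R d1| * |selW s R d2| else 0 := by
            apply Finset.sum_le_sum
            intro d1 _
            apply Finset.sum_le_sum_of_subset_of_nonneg
            · exact Nat.divisors_subset_of_dvd prodPrimes_ne_zero hdP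
            · intro d2 _ _; split_ifs <;> positivity
        _ ≤ _ := by
            apply Finset.sum_le_sum_of_subset_of_nonneg
            · exact Nat.divisors_subset_of_dvd prodPrimes_ne_zero hdP
            · intro d1 _ _
              apply Finset.sum_nonneg
              intro d2 _; split_ifs <;> positivity
    calc |lambdaSquared (selW s R) d| * |s.rem d|
        ≤ (∑ d1 ∈ divisors s.prodPrimes, ∑ d2 ∈ divisors s.prodPrimes,
        if d = Nat.lcm d1 d2 then (|selW s R d1| * |selW s R d2|) else 0) * |s.rem d| :=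
          mul_le_mul_of_nonneg_right h2 (abs_nonneg _)
      _ ≤ _ := by
          rw [Finset.sum_mul]
          apply Finset.sum_le_sum
          intro d1 hd1
          rw [Finset.sum_mul]
          apply Finset.sum_le_sum
          intro d2 hd2
          split_ifs with hl
          · have h3 := hrem d1 d2 (Nat.dvd_of_mem_divisors hd1) (Nat.dvd_of_mem_divisors hd2)
            rw [← hl] at h3
            calc |selW s R d1| * |selW s R d2| * |s.rem d|
                ≤ |selW s R d1| * |selW s R d2| * (E d1 * E d2) :=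
                  mul_le_mul_of_nonneg_left h3 (by positivity)
              _ = _ := by ring
          · simp
  refine (Finset.sum_le_sum h1).trans ?_
  rw [Finset.sum_comm]
  have h3 : ∀ d1 ∈ divisors s.prodPrimes, (∑ d ∈ divisors s.prodPrimes,
      ∑ d2 ∈ divisors s.prodPrimes,
        if d = Nat.lcm d1 d2 then (|selW s R d1| * E d1) * (|selW s R d2| * E d2) else 0) ≤
      ∑ d2 ∈ divisors s.prodPrimes, (|selW s R d1| * E d1) * (|selW s R d2| * E d2) := by
    intro d1 _
    rw [Finset.sum_comm]
    apply Finset.sum_le_sum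
    intro d2 _
    rw [Finset.sum_ite_eq']
    have := hE d1
    have := hE d2
    split_ifs
    · exact le_refl _
    · positivity
  refine (Finset.sum_le_sum h3).trans ?_
  have h4 : (∑ d1 ∈ divisors s.prodPrimes, ∑ d2 ∈ divisors s.prodPrimes,
      (|selW s R d1| * E d1) * (|selW s R d2| * E d2)) =
      (∑ d ∈ divisors s.prodPrimes, |selW s R d| * E d) ^ 2 := by
    rw [sq, Finset.sum_mul_sum]
  rw [h4]
  have h5 : (∑ d ∈ divisors s.prodPrimes, |selW s R d| * E d) ≤
      ∑ d ∈ (divisors s.prodPrimes).filter (fun d : ℕ => (d : ℝ) ≤ R), (s.nu d)⁻¹ * E d := by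
    rw [Finset.sum_filter]
    apply Finset.sum_le_sum
    intro d hd
    split_ifs with h
    · exact mul_le_mul_of_nonneg_right (abs_selW_le s R hR (Nat.dvd_of_mem_divisors hd)) (hE d)
    · rw [selW_eq_zero s R (not_le.mp h), abs_zero, zero_mul]
  have h6 : 0 ≤ (∑ d ∈ divisors s.prodPrimes, |selW s R d| * E d) :=
    Finset.sum_nonneg (fun d _ => mul_nonneg (abs_nonneg _) (hE d))
  gcongr

end Pool.Agent.V11292.Q
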