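import Pool.Agent.V11292.Q.SelE

/-!
# The Selberg sum is at least a sum over all integers with the right prime factors
-/

set_option autoImplicit false

open Finset Nat ArithmeticFunction BoundingSieve

namespace Pool.Agent.V11292.Q

open Pool.Agent.Helper923.PPS

/-- The radical. -/
def rad (m : ℕ) : ℕ := ∏ p ∈ m.primeFactors, p

lemma rad_dvd (m : ℕ) : rad m ∣ m := Nat.prod_primeFactors_dvd m

lemma rad_pos (m : ℕ) : 0 < rad m :=
  Finset.prod_pos (fun _ hp => (Nat.prime_of_mem_primeFactors hp).pos)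

lemma primeFactors_rad (m : ℕ) : (rad m).primeFactors = m.primeFactors := by
  unfold rad
  exact Nat.primeFactors_prod (fun p hp => Nat.prime_of_mem_primeFactors hp)

lemma sum_fiber_le (k : ℕ →* ℝ) (hk1 : ∀ p : ℕ, p.Prime → ‖k p‖ < 1) (hk0 : ∀ m, 0 ≤ k m)
    (l : ℕ) (M : Finset ℕ) (hM : ∀ m ∈ M, 1 ≤ m ∧ rad m = l) :
    ∑ m ∈ M, k m ≤ k l * ∏ p ∈ l.primeFactors, (1 - k p)⁻¹ := by
  have h := (EulerProduct.summable_and_hasSum_factoredNumbers_prod_filter_prime_geometric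
    (f := k) (fun {p} hp => hk1 p hp) l.primeFactors).2
  have hf : l.primeFactors.filter Nat.Prime = l.primeFactors := by
    apply Finset.filter_true_of_mem
    intro p hp
    exact Nat.prime_of_mem_primeFactors hp
  rw [hf] at h
  have hmem : ∀ m ∈ M, m / l ∈ factoredNumbers l.primeFactors := by
    intro m hm
    obtain ⟨h1, h2⟩ := hM m hm
    have hlm : l ∣ m := h2 ▸ rad_dvd m
    have hl : 0 < l := h2 ▸ rad_pos m
    rw [mem_factoredNumbers']
    intro p hp hpd
    have h3 : p ∣ m := hpd.trans (Nat.div_dvd_of_dvd hlm)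
    have h4 : p ∈ m.primeFactors := Nat.mem_primeFactors.2 ⟨hp, h3, by omega⟩
    rw [← primeFactors_rad m, h2] at h4
    exact h4
  have hmul : ∀ m ∈ M, k m = k l * k (m / l) := by
    intro m hm
    obtain ⟨h1, h2⟩ := hM m hm
    have hlm : l ∣ m := h2 ▸ rad_dvd m
    rw [← map_mul, Nat.mul_div_cancel' hlm]
  rw [sum_congr rfl hmul, ← mul_sum]
  apply mul_le_mul_of_nonneg_left _ (hk0 l)
  let g : {m // m ∈ M} → factoredNumbers l.primeFactors := fun m => ⟨m.1 / l, hmem m.1 m.2⟩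
  have hinj : Function.Injective g := by
    intro a b hab
    have h3 : a.1 / l = b.1 / l := congrArg Subtype.val hab
    have ha : l ∣ a.1 := (hM a.1 a.2).2 ▸ rad_dvd a.1
    have hb : l ∣ b.1 := (hM b.1 b.2).2 ▸ rad_dvd b.1
    apply Subtype.ext
    rw [← Nat.mul_div_cancel' ha, ← Nat.mul_div_cancel' hb, h3]
  have h5 : ∑ m ∈ M, k (m / l) = ∑ x ∈ M.attach.map ⟨g, hinj⟩, k x := by
    rw [Finset.sum_map, ← Finset.sum_attach]
    rfl
  rw [h5]
  exact sum_le_hasSum _ (fun i _ => hk0 _) h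

theorem smooth_le (s : BoundingSieve) (R : ℕ) (k : ℕ →* ℝ)
    (hk : ∀ p, p.Prime → p ∣ s.prodPrimes → s.nu p = k p)
    (hk1 : ∀ p : ℕ, p.Prime → ‖k p‖ < 1) (hk0 : ∀ m, 0 ≤ k m) (M : Finset ℕ)
    (hM : ∀ m ∈ M, 1 ≤ m ∧ m ≤ R ∧ ∀ p, p.Prime → p ∣ m → p ∣ s.prodPrimes) :
    ∑ m ∈ M, k m ≤ selS s R := by
  unfold selS
  have hdvd : ∀ m ∈ M, rad m ∣ s.prodPrimes := by
    intro m hm
    obtain ⟨h1, h2, h3⟩ := hM m hm
    unfold rad
    apply Finset.prod_primes_dvd
    · intro p hp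
      exact (Nat.prime_of_mem_primeFactors hp).prime
    · intro p hp
      exact h3 p (Nat.prime_of_mem_primeFactors hp) (Nat.dvd_of_mem_primeFactors hp)
  have hmaps : ∀ m ∈ M, rad m ∈ (divisors s.prodPrimes).filter (fun l : ℕ => (l : ℝ) ≤ (R : ℝ)) := by
    intro m hm
    rw [Finset.mem_filter, Nat.mem_divisors]
    refine ⟨⟨hdvd m hm, prodPrimes_ne_zero⟩, ?_⟩
    have h4 : rad m ≤ R := (Nat.le_of_dvd (by have := (hM m hm).1; omega) (rad_dvd m)).trans
      (hM m hm).2.1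
    exact_mod_cast h4
  rw [← Finset.sum_fiberwise_of_maps_to hmaps]
  apply Finset.sum_le_sum
  intro l hl
  rw [Finset.mem_filter, Nat.mem_divisors] at hl
  have h1 := sum_fiber_le k hk1 hk0 l (M.filter (fun m => rad m = l)) (fun m hm => by
    rw [Finset.mem_filter] at hm
    exact ⟨(hM m hm.1).1, hm.2⟩)
  refine h1.trans (le_of_eq ?_)
  rw [selbergTerms_apply, ← prod_primeFactors_nu hl.1.1]
  have hl2 : Squarefree l := squarefree_of_dvd_prodPrimes hl.1.1
  have h2 : k l = ∏ p ∈ l.primeFactors, k p := by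
    rw [← map_prod, Nat.prod_primeFactors_of_squarefree hl2]
  rw [h2]
  congr 1
  · apply Finset.prod_congr rfl
    intro p hp
    exact (hk p (Nat.prime_of_mem_primeFactors hp)
      ((Nat.dvd_of_mem_primeFactors hp).trans hl.1.1)).symm
  · apply Finset.prod_congr rfl
    intro p hp
    rw [hk p (Nat.prime_of_mem_primeFactors hp)
      ((Nat.dvd_of_mem_primeFactors hp).trans hl.1.1)]

end Pool.Agent.V11292.Q
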