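import Pool.Agent.V11292.Q.Chi
import Pool.Agent.V11292.Q.Roots

/-!
# Numbers composed of the primes `1 mod 4`, and of the primes `3 mod 4`
-/

set_option autoImplicit false

namespace Pool.Agent.V11292.Q

open Finset

/-- All the prime factors are `1 mod 4`. -/
def U (m : ℕ) : Prop := 0 < m ∧ ∀ p, p.Prime → p ∣ m → p % 4 = 1

/-- All the prime factors are `3 mod 4`. -/
def V (m : ℕ) : Prop := 0 < m ∧ ∀ p, p.Prime → p ∣ m → p % 4 = 3

lemma U_one : U 1 := ⟨Nat.one_pos, fun p hp h => absurd (Nat.dvd_one.1 h) hp.ne_one⟩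

lemma V_one : V 1 := ⟨Nat.one_pos, fun p hp h => absurd (Nat.dvd_one.1 h) hp.ne_one⟩

lemma U_mul {a b : ℕ} (ha : U a) (hb : U b) : U (a * b) := by
  refine ⟨Nat.mul_pos ha.1 hb.1, ?_⟩
  intro p hp h
  rcases (Nat.Prime.dvd_mul hp).1 h with h | h
  · exact ha.2 p hp h
  · exact hb.2 p hp h

lemma V_mul {a b : ℕ} (ha : V a) (hb : V b) : V (a * b) := by
  refine ⟨Nat.mul_pos ha.1 hb.1, ?_⟩
  intro p hp h
  rcases (Nat.Prime.dvd_mul hp).1 h with h | h
  · exact ha.2 p hp h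
  · exact hb.2 p hp h

lemma U_of_dvd {a b : ℕ} (h : a ∣ b) (hb : U b) : U a :=
  ⟨Nat.pos_of_dvd_of_pos h hb.1, fun p hp h1 => hb.2 p hp (h1.trans h)⟩

lemma V_of_dvd {a b : ℕ} (h : a ∣ b) (hb : V b) : V a :=
  ⟨Nat.pos_of_dvd_of_pos h hb.1, fun p hp h1 => hb.2 p hp (h1.trans h)⟩

lemma coprime_VU {v u : ℕ} (hv : V v) (hu : U u) : Nat.Coprime v u := by
  by_contra h
  obtain ⟨p, hp, h1, h2⟩ := Nat.Prime.not_coprime_iff_dvd.1 h
  have h3 := hv.2 p hp h1
  have h4 := hu.2 p hp h2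
  omega

lemma coprime_two_VU (a : ℕ) {v u : ℕ} (hv : V v) (hu : U u) : Nat.Coprime (2 ^ a) (v * u) := by
  apply Nat.Coprime.pow_left
  rw [Nat.Prime.coprime_iff_not_dvd Nat.prime_two]
  intro h
  rcases (Nat.Prime.dvd_mul Nat.prime_two).1 h with h | h
  · have := hv.2 2 Nat.prime_two h
    omega
  · have := hu.2 2 Nat.prime_two h
    omega

lemma decomp (m : ℕ) (hm : 0 < m) : ∃ a v u, m = 2 ^ a * (v * u) ∧ V v ∧ U u := by
  induction m using Nat.recOnMul with
  | zero => omega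
  | one => exact ⟨0, 1, 1, by norm_num, V_one, U_one⟩
  | prime p hp =>
    rcases hp.eq_two_or_odd with h | h
    · subst h
      exact ⟨1, 1, 1, by norm_num, V_one, U_one⟩
    · have h4 : p % 4 = 1 ∨ p % 4 = 3 := by omega
      rcases h4 with h4 | h4
      · refine ⟨0, 1, p, by ring, V_one, hp.pos, ?_⟩
        intro q hq hqp
        rw [(Nat.prime_dvd_prime_iff_eq hq hp).1 hqp]
        exact h4
      · refine ⟨0, p, 1, by ring, ⟨hp.pos, ?_⟩, U_one⟩
        intro q hq hqp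
        rw [(Nat.prime_dvd_prime_iff_eq hq hp).1 hqp]
        exact h4
  | mul a b iha ihb =>
    obtain ⟨a1, v1, u1, h1, h2, h3⟩ := iha (Nat.pos_of_mul_pos_right hm)
    obtain ⟨a2, v2, u2, h4, h5, h6⟩ := ihb (Nat.pos_of_mul_pos_left hm)
    refine ⟨a1 + a2, v1 * v2, u1 * u2, ?_, V_mul h2 h5, U_mul h3 h6⟩
    rw [h1, h4]
    ring

lemma rho_decomp (a : ℕ) {v u : ℕ} (hv : V v) (hu : U u) :
    rho (2 ^ a * (v * u)) = rho v * rho u := by
  rw [rho_mul (coprime_two_VU a hv hu), rho_mul (coprime_VU hv hu), rho_two_pow, one_mul]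

lemma rho_V {v : ℕ} (hv : V v) : rho v = 0 ∨ (rho v = 1 ∧ IsSquare v) := by
  induction v using Nat.recOnPosPrimePosCoprime with
  | prime_pow p k hp hk =>
    have h3 : p % 4 = 3 := hv.2 p hp (dvd_pow_self p hk.ne')
    rw [rho_prime_pow hp, ZMod.χ₄_nat_three_mod_four h3, neg_one_geom_sum]
    split_ifs with h
    · left; rfl
    · right
      refine ⟨rfl, ?_⟩
      rw [Nat.not_even_iff_odd] at h
      obtain ⟨j, hj⟩ := h
      refine ⟨p ^ j, ?_⟩
      rw [← pow_add]
      congr 1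
      omega
  | zero => exact absurd hv.1 (by norm_num)
  | one => right; exact ⟨rho_one, ⟨1, rfl⟩⟩
  | coprime a b ha hb hab iha ihb =>
    rw [rho_mul hab]
    rcases iha (V_of_dvd (Dvd.intro _ rfl) hv) with h1 | ⟨h1, h2⟩
    · left; rw [h1, zero_mul]
    · rcases ihb (V_of_dvd (Dvd.intro_left _ rfl) hv) with h3 | ⟨h3, h4⟩
      · left; rw [h3, mul_zero]
      · right
        refine ⟨by rw [h1, h3, one_mul], ?_⟩
        obtain ⟨x, hx⟩ := h2
        obtain ⟨y, hy⟩ := h4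
        refine ⟨x * y, ?_⟩
        rw [hx, hy]
        ring

lemma chi_U {u : ℕ} (hu : U u) : ZMod.χ₄ (u : ZMod 4) = 1 := by
  induction u using Nat.recOnMul with
  | zero => exact absurd hu.1 (by norm_num)
  | one => simp
  | prime p hp => exact ZMod.χ₄_nat_one_mod_four (hu.2 p hp dvd_rfl)
  | mul a b iha ihb =>
    rw [Nat.cast_mul, map_mul, iha (U_of_dvd (Dvd.intro _ rfl) hu),
      ihb (U_of_dvd (Dvd.intro_left _ rfl) hu), one_mul]

lemma rho_U {u : ℕ} (hu : U u) : rho u = u.divisors.card := by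
  unfold rho
  rw [Finset.sum_congr rfl (g := fun _ => (1 : ℤ))]
  · simp
  · intro d hd
    exact chi_U (U_of_dvd (Nat.dvd_of_mem_divisors hd) hu)

lemma rho_nonneg {m : ℕ} (hm : 0 < m) : 0 ≤ rho m := by
  obtain ⟨a, v, u, h, hv, hu⟩ := decomp m hm
  rw [h, rho_decomp a hv hu, rho_U hu]
  rcases rho_V hv with h1 | ⟨h1, -⟩ <;> rw [h1] <;> positivity

/-- The completely multiplicative function equal to `w` at the primes. -/
def ww (m : ℕ) : ℕ := (m.primeFactorsList.map w).prod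

lemma ww_mul {a b : ℕ} (ha : a ≠ 0) (hb : b ≠ 0) : ww (a * b) = ww a * ww b := by
  unfold ww
  rw [← List.prod_append, ← List.map_append]
  exact ((Nat.perm_primeFactorsList_mul ha hb).map w).prod_eq

lemma ww_one : ww 1 = 1 := by simp [ww]

lemma ww_prime {p : ℕ} (hp : p.Prime) : ww p = w p := by
  unfold ww
  rw [Nat.primeFactorsList_prime hp]
  simp

/-- The completely multiplicative function `ww m / m`. -/
noncomputable def kk : ℕ →* ℝ where
  toFun m := (ww m : ℝ) * (m : ℝ)⁻¹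
  map_one' := by simp [ww_one]
  map_mul' a b := by
    rcases Nat.eq_zero_or_pos a with rfl | ha
    · simp
    rcases Nat.eq_zero_or_pos b with rfl | hb
    · simp
    rw [ww_mul ha.ne' hb.ne']
    push_cast
    rw [mul_inv]
    ring

lemma kk_apply (m : ℕ) : kk m = (ww m : ℝ) * (m : ℝ)⁻¹ := rfl

lemma kk_nonneg (m : ℕ) : 0 ≤ kk m := by
  rw [kk_apply]
  positivity

lemma w_lt {p : ℕ} (hp : p.Prime) : w p < p := by
  unfold w
  have := hp.two_le
  split_ifs with h
  · rcases eq_or_ne p 2 with rfl | h2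
    · norm_num at h
    · omega
  · omega

lemma kk_prime {p : ℕ} (hp : p.Prime) : kk p = (w p : ℝ) * (p : ℝ)⁻¹ := by
  rw [kk_apply, ww_prime hp]

lemma kk_lt_one {p : ℕ} (hp : p.Prime) : ‖kk p‖ < 1 := by
  rw [Real.norm_of_nonneg (kk_nonneg p), kk_prime hp, ← div_eq_mul_inv, div_lt_one]
  · exact_mod_cast w_lt hp
  · exact_mod_cast hp.pos

lemma ww_V {v : ℕ} (hv : V v) : ww v = 1 := by
  induction v using Nat.recOnMul with
  | zero => exact absurd hv.1 (by norm_num)
  | one => exact ww_one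
  | prime p hp =>
    rw [ww_prime hp]
    unfold w
    rw [if_neg]
    have := hv.2 p hp dvd_rfl
    omega
  | mul a b iha ihb =>
    have h1 := V_of_dvd (Dvd.intro b rfl) hv
    have h2 := V_of_dvd (Dvd.intro_left a rfl) hv
    rw [ww_mul h1.1.ne' h2.1.ne', iha h1, ihb h2]

lemma kk_V {v : ℕ} (hv : V v) : kk v = (v : ℝ)⁻¹ := by
  rw [kk_apply, ww_V hv]
  simp

lemma card_divisors_mul_le (a b : ℕ) :
    (a * b).divisors.card ≤ a.divisors.card * b.divisors.card := by
  classical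
  open scoped Pointwise in
  rw [Nat.divisors_mul]
  exact Finset.card_mul_le

lemma card_divisors_le_ww {u : ℕ} (hu : U u) : u.divisors.card ≤ ww u := by
  induction u using Nat.recOnMul with
  | zero => exact absurd hu.1 (by norm_num)
  | one => simp [ww_one]
  | prime p hp =>
    rw [ww_prime hp]
    unfold w
    rw [if_pos (hu.2 p hp dvd_rfl), hp.divisors, Finset.card_pair hp.ne_one.symm]
  | mul a b iha ihb =>
    have h1 := U_of_dvd (Dvd.intro b rfl) hu
    have h2 := U_of_dvd (Dvd.intro_left a rfl) hu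
    rw [ww_mul h1.1.ne' h2.1.ne']
    exact (card_divisors_mul_le a b).trans (Nat.mul_le_mul (iha h1) (ihb h2))

lemma rho_le_kk {u : ℕ} (hu : U u) : (rho u : ℝ) * (u : ℝ)⁻¹ ≤ kk u := by
  rw [kk_apply, rho_U hu]
  apply mul_le_mul_of_nonneg_right _ (by positivity)
  exact_mod_cast card_divisors_le_ww hu

end Pool.Agent.V11292.Q
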